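import Pool.Agent.Lib.MP_dec67b.Core

/-!
# Separated subsets of unit-separated point sets in high dimension

(helper53, problem MP_dec67b_co.)  Far copies of the block of `Core.lean`: for all `d ≥ 1` and `n`
there is a 1-separated set of `n` points in `ℝ ^ d` all of whose strictly separated subsets have
at most `60 (n / d ^ (3/2) + d ^ (1/2))` points.
-/

set_option autoImplicit false

namespace Pool.Agent.Lib.MP_dec67b

open Finset

/-- any two distinct points of `X` are at distance at least `1` -/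
def Sep {d : ℕ} (X : Finset (EuclideanSpace ℝ (Fin d))) : Prop :=
  ∀ x ∈ X, ∀ y ∈ X, x ≠ y → 1 ≤ dist x y

/-- any two distinct points of `Y` are at distance greater than `1` -/
def SSep {d : ℕ} (Y : Finset (EuclideanSpace ℝ (Fin d))) : Prop :=
  ∀ x ∈ Y, ∀ y ∈ Y, x ≠ y → 1 < dist x y

/-- `g d n`: the largest `m` such that every 1-separated set of `n` points in `ℝ ^ d` contains a
subset of at least `m` points any two of which are at distance greater than `1` -/
noncomputable def g (d n : ℕ) : ℕ :=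
  sSup {m : ℕ | ∀ X : Finset (EuclideanSpace ℝ (Fin d)), X.card = n → Sep X →
    ∃ Y ⊆ X, m ≤ Y.card ∧ SSep Y}

private lemma exists_iso {m d : ℕ} (h : m ≤ d) :
    ∃ f : EuclideanSpace ℝ (Fin m) → EuclideanSpace ℝ (Fin d), ∀ x y, dist (f x) (f y) = dist x y := by
  obtain ⟨k, rfl⟩ := Nat.exists_eq_add_of_le h
  refine ⟨fun x => WithLp.toLp 2 (Fin.append x.ofLp 0), fun x y => ?_⟩
  rw [EuclideanSpace.dist_eq, EuclideanSpace.dist_eq, Fin.sum_univ_add]
  simp

/-- transport along an isometry -/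
private lemma transport {m d : ℕ} (f : EuclideanSpace ℝ (Fin m) → EuclideanSpace ℝ (Fin d))
    (hf : ∀ x y, dist (f x) (f y) = dist x y) (S : Finset (EuclideanSpace ℝ (Fin m)))
    (hS : Sep S) (b : ℝ) (hb : ∀ T ⊆ S, SSep T → (T.card : ℝ) ≤ b) :
    ∃ S' : Finset (EuclideanSpace ℝ (Fin d)), S'.card = S.card ∧ Sep S' ∧
      ∀ T ⊆ S', SSep T → (T.card : ℝ) ≤ b := by
  classical
  have hinj : Function.Injective f := by
    intro x y hxy
    rw [← dist_eq_zero, ← hf, hxy, dist_self]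
  refine ⟨S.image f, card_image_of_injective _ hinj, ?_, ?_⟩
  · intro x hx y hy hxy
    obtain ⟨x', hx', rfl⟩ := mem_image.1 hx
    obtain ⟨y', hy', rfl⟩ := mem_image.1 hy
    rw [hf]
    exact hS x' hx' y' hy' fun h => hxy (by rw [h])
  · intro T hT hTs
    have e1 : T = (S.filter fun x => f x ∈ T).image f := by
      ext x
      constructor
      · intro hx
        obtain ⟨x', hx', rfl⟩ := mem_image.1 (hT hx)
        exact mem_image_of_mem f (mem_filter.2 ⟨hx', hx⟩)
      · intro hx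
        obtain ⟨x', hx', rfl⟩ := mem_image.1 hx
        exact (mem_filter.1 hx').2
    rw [e1, card_image_of_injective _ hinj]
    refine hb _ (filter_subset _ _) ?_
    intro x hx y hy hxy
    rw [← hf]
    exact hTs _ (mem_filter.1 hx).2 _ (mem_filter.1 hy).2 fun h => hxy (hinj h)

/-- the block -/
private lemma block (j d : ℕ) (hd : 6 * 4 ^ j ≤ d) :
    ∃ S : Finset (EuclideanSpace ℝ (Fin d)), S.card = 8 * 16 ^ j ∧ Sep S ∧
      ∀ T ⊆ S, SSep T → (T.card : ℝ) ≤ 2 * 2 ^ j + 2 := by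
  have hp : Fact (Nat.Prime 2) := ⟨Nat.prime_two⟩
  let F := GaloisField 2 (2 * j + 1)
  let _ : Fintype F := Fintype.ofFinite F
  have hfin : Module.finrank (ZMod 2) F = 2 * j + 1 := GaloisField.finrank 2 (by omega)
  have hcardF : Fintype.card F = 2 * 4 ^ j := by
    rw [← Nat.card_eq_fintype_card, GaloisField.card 2 (2 * j + 1) (by omega), pow_succ, pow_mul]
    norm_num
    ring
  have hodd : Odd (Module.finrank (ZMod 2) F) := by
    rw [hfin]
    exact ⟨j, rfl⟩
  have hr2 : ((2 : ℝ) ^ (j + 1)) ^ 2 = 2 * (Fintype.card F : ℝ) := by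
    rw [hcardF, ← pow_mul, mul_comm (j + 1) 2, pow_mul]
    push_cast
    rw [pow_succ]
    norm_num
    ring
  obtain ⟨S, hScard, hSsep, hSbad⟩ := core F hodd (2 ^ (j + 1)) (by positivity) hr2
  obtain ⟨f, hf⟩ := exists_iso (m := 3 * Fintype.card F) (d := d) (by rw [hcardF]; omega)
  obtain ⟨S', h1, h2, h3⟩ := transport f hf S hSsep _ hSbad
  refine ⟨S', ?_, h2, fun T hT hTs => ?_⟩
  · rw [h1, hScard, hcardF, mul_pow, ← pow_mul, mul_comm j 2, pow_mul]
    norm_num
    ring
  · refine (h3 T hT hTs).trans (le_of_eq ?_)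
    rw [pow_succ]
    ring

private lemma exists_far {d : ℕ} (hd : 1 ≤ d) (A B : Finset (EuclideanSpace ℝ (Fin d))) :
    ∃ v : EuclideanSpace ℝ (Fin d), ∀ a ∈ A, ∀ b ∈ B, 1 < dist a (b + v) := by
  set M : ℝ := ∑ a ∈ A, ‖a‖ + ∑ b ∈ B, ‖b‖ + 2 with hM
  have hA0 : 0 ≤ ∑ a ∈ A, ‖a‖ := sum_nonneg fun a _ => norm_nonneg a
  have hB0 : 0 ≤ ∑ b ∈ B, ‖b‖ := sum_nonneg fun b _ => norm_nonneg b
  refine ⟨EuclideanSpace.single ⟨0, hd⟩ M, fun a ha b hb => ?_⟩
  have hv : ‖(EuclideanSpace.single ⟨0, hd⟩ M : EuclideanSpace ℝ (Fin d))‖ = M := by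
    rw [PiLp.norm_single, Real.norm_eq_abs, abs_of_nonneg]
    linarith
  have h1 : ‖a‖ ≤ ∑ a ∈ A, ‖a‖ := single_le_sum (f := fun a => ‖a‖) (fun a _ => norm_nonneg a) ha
  have h2 : ‖b‖ ≤ ∑ b ∈ B, ‖b‖ := single_le_sum (f := fun b => ‖b‖) (fun b _ => norm_nonneg b) hb
  have h3 : ‖(EuclideanSpace.single ⟨0, hd⟩ M : EuclideanSpace ℝ (Fin d))‖ ≤
      ‖a - (b + EuclideanSpace.single ⟨0, hd⟩ M)‖ + ‖a‖ + ‖b‖ := by
    have e : (EuclideanSpace.single ⟨0, hd⟩ M : EuclideanSpace ℝ (Fin d)) =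
        -(a - (b + EuclideanSpace.single ⟨0, hd⟩ M)) + a - b := by abel
    conv_lhs => rw [e]
    refine (norm_sub_le _ _).trans ?_
    refine add_le_add_left ?_ _ |>.trans' le_rfl
    refine (norm_add_le _ _).trans ?_
    rw [norm_neg]
  rw [dist_eq_norm]
  rw [hv] at h3
  linarith

/-- far copies -/
private lemma copies {d : ℕ} (hd : 1 ≤ d) (S : Finset (EuclideanSpace ℝ (Fin d))) (hS : Sep S)
    (b : ℝ) (hb : ∀ T ⊆ S, SSep T → (T.card : ℝ) ≤ b) (m : ℕ) :
    ∃ X : Finset (EuclideanSpace ℝ (Fin d)), X.card = m * S.card ∧ Sep X ∧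
      ∀ Y ⊆ X, SSep Y → (Y.card : ℝ) ≤ m * b := by
  classical
  induction m with
  | zero =>
    refine ⟨∅, by simp, fun x hx => absurd hx (notMem_empty x), fun Y hY _ => ?_⟩
    rw [subset_empty.1 hY]
    simp
  | succ m ih =>
    obtain ⟨X, h1, h2, h3⟩ := ih
    obtain ⟨v, hv⟩ := exists_far hd X S
    obtain ⟨S', k1, k2, k3⟩ : ∃ S' : Finset (EuclideanSpace ℝ (Fin d)), S' = S.image (· + v) ∧
        Sep S' ∧ ∀ T ⊆ S', SSep T → (T.card : ℝ) ≤ b := by
      refine ⟨S.image (· + v), rfl, ?_, ?_⟩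
      · intro x hx y hy hxy
        obtain ⟨x', hx', rfl⟩ := mem_image.1 hx
        obtain ⟨y', hy', rfl⟩ := mem_image.1 hy
        rw [dist_add_right]
        exact hS x' hx' y' hy' fun h => hxy (by rw [h])
      · intro T hT hTs
        have e1 : T = (S.filter fun x => x + v ∈ T).image (· + v) := by
          ext x
          constructor
          · intro hx
            obtain ⟨x', hx', rfl⟩ := mem_image.1 (hT hx)
            exact mem_image_of_mem (· + v) (mem_filter.2 ⟨hx', hx⟩)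
          · intro hx
            obtain ⟨x', hx', rfl⟩ := mem_image.1 hx
            exact (mem_filter.1 hx').2
        rw [e1, card_image_of_injective _ (add_left_injective v)]
        refine hb _ (filter_subset _ _) ?_
        intro x hx y hy hxy
        rw [← dist_add_right x y v]
        exact hTs _ (mem_filter.1 hx).2 _ (mem_filter.1 hy).2 fun h => hxy (add_left_injective v h)
    have hcS : S'.card = S.card := by
      rw [k1, card_image_of_injective _ (add_left_injective v)]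
    have hfar : ∀ x ∈ X, ∀ y ∈ S', 1 < dist x y := by
      intro x hx y hy
      rw [k1] at hy
      obtain ⟨s, hs, rfl⟩ := mem_image.1 hy
      exact hv x hx s hs
    have hdis : Disjoint X S' := by
      rw [disjoint_left]
      intro x hx hx'
      have := hfar x hx x hx'
      rw [dist_self] at this
      linarith
    refine ⟨X ∪ S', ?_, ?_, ?_⟩
    · rw [card_union_of_disjoint hdis, h1, hcS]
      ring
    · intro x hx y hy hxy
      rcases mem_union.1 hx with hx | hx <;> rcases mem_union.1 hy with hy | hy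
      · exact h2 x hx y hy hxy
      · exact (hfar x hx y hy).le
      · rw [dist_comm]
        exact (hfar y hy x hx).le
      · exact k2 x hx y hy hxy
    · intro Y hY hYs
      have e1 : Y = (Y ∩ X) ∪ (Y ∩ S') := by
        rw [← inter_union_distrib_left, inter_eq_left.2 hY]
      have hle : (Y.card : ℝ) ≤ (Y ∩ X).card + (Y ∩ S').card := by
        have h4 := card_union_le (Y ∩ X) (Y ∩ S')
        rw [← e1] at h4
        exact_mod_cast h4
      have h5 := h3 (Y ∩ X) inter_subset_right fun x hx y hy hxy =>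
        hYs x (mem_of_mem_inter_left hx) y (mem_of_mem_inter_left hy) hxy
      have h6 := k3 (Y ∩ S') inter_subset_right fun x hx y hy hxy =>
        hYs x (mem_of_mem_inter_left hx) y (mem_of_mem_inter_left hy) hxy
      push_cast
      linarith

/-- For all `d ≥ 1` and `n` there is a 1-separated set of `n` points in `ℝ ^ d` all of whose
strictly separated subsets are small. -/
theorem exists_set (d n : ℕ) (hd : 1 ≤ d) :
    ∃ X : Finset (EuclideanSpace ℝ (Fin d)), X.card = n ∧ Sep X ∧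
      ∀ Y ⊆ X, SSep Y → (Y.card : ℝ) ≤ 60 * (n / (d * √d) + √d) := by
  classical
  have hd0 : (1 : ℝ) ≤ d := by exact_mod_cast hd
  have hs1 : 1 ≤ √(d : ℝ) := by
    rw [Real.one_le_sqrt]
    exact hd0
  have hdd : 0 < (d : ℝ) * √d := by positivity
  have hn0 : (0 : ℝ) ≤ n := Nat.cast_nonneg n
  by_cases h6 : d < 6
  · obtain ⟨X, h1, h2, h3⟩ := copies hd {0} (by
      intro x hx y hy hxy
      rw [mem_singleton] at hx hy
      exact absurd (hx.trans hy.symm) hxy) 1 (fun T hT _ => by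
        have := card_le_card hT
        rw [card_singleton] at this
        exact_mod_cast this) n
    refine ⟨X, by rw [h1, card_singleton, mul_one], h2, fun Y hY hYs => ?_⟩
    refine (h3 Y hY hYs).trans ?_
    have hd5 : (d : ℝ) ≤ 5 := by
      have : d ≤ 5 := by omega
      exact_mod_cast this
    have hs5 : √(d : ℝ) ≤ 5 := by
      rw [Real.sqrt_le_left (by norm_num)]
      linarith
    have h25 : (d : ℝ) * √d ≤ 25 := by nlinarith
    have h7 : (n : ℝ) / 25 ≤ n / (d * √d) := div_le_div_of_nonneg_left hn0 hdd h25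
    have h8 : 0 ≤ √(d : ℝ) := Real.sqrt_nonneg _
    linarith
  · set j := Nat.log 4 (d / 6) with hj
    have hne : d / 6 ≠ 0 := by omega
    have hj1 : 4 ^ j ≤ d / 6 := Nat.pow_log_le_self 4 hne
    have hj2 : d / 6 < 4 ^ (j + 1) := Nat.lt_pow_succ_log_self (by norm_num) _
    have hd1 : 6 * 4 ^ j ≤ d := by omega
    have hd2 : d < 24 * 4 ^ j := by
      rw [pow_succ] at hj2
      omega
    obtain ⟨S, hSc, hS, hSb⟩ := block j d hd1
    obtain ⟨X₀, h1, h2, h3⟩ := copies hd S hS _ hSb (n / (8 * 16 ^ j) + 1)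
    have hcard : n ≤ X₀.card := by
      rw [h1, hSc, mul_comm]
      exact (Nat.lt_mul_div_succ n (by positivity)).le
    obtain ⟨X, hX, hXc⟩ := exists_subset_card_eq hcard
    refine ⟨X, hXc, fun x hx y hy hxy => h2 x (hX hx) y (hX hy) hxy, fun Y hY hYs => ?_⟩
    refine (h3 Y (hY.trans hX) hYs).trans ?_
    -- numerics
    set t : ℝ := 2 ^ j with ht
    have ht1 : 1 ≤ t := one_le_pow₀ (by norm_num)
    have h4 : (4 : ℝ) ^ j = t ^ 2 := by
      rw [ht, ← pow_mul, mul_comm j 2, pow_mul]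
      norm_num
    have h16 : (16 : ℝ) ^ j = t ^ 4 := by
      rw [ht, ← pow_mul, mul_comm j 4, pow_mul]
      norm_num
    have e1 : 6 * t ^ 2 ≤ (d : ℝ) := by
      rw [← h4]
      exact_mod_cast hd1
    have e2 : (d : ℝ) ≤ 24 * t ^ 2 := by
      rw [← h4]
      exact_mod_cast hd2.le
    have hk : ((n / (8 * 16 ^ j) : ℕ) : ℝ) ≤ n / (8 * t ^ 4) := by
      rw [← h16]
      have := Nat.cast_div_le (α := ℝ) (m := n) (n := 8 * 16 ^ j)
      push_cast at this
      exact this
    have hsq1 : 2 * t ≤ √(d : ℝ) := by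
      apply Real.le_sqrt_of_sq_le
      nlinarith
    have hsq2 : √(d : ℝ) ≤ 5 * t := by
      rw [Real.sqrt_le_left (by positivity)]
      nlinarith
    have hbig : (d : ℝ) * √d ≤ 120 * t ^ 3 := by
      calc (d : ℝ) * √d ≤ (24 * t ^ 2) * (5 * t) :=
            mul_le_mul e2 hsq2 (Real.sqrt_nonneg _) (by positivity)
        _ = 120 * t ^ 3 := by ring
    have h7 : (n : ℝ) / (120 * t ^ 3) ≤ n / (d * √d) := div_le_div_of_nonneg_left hn0 hdd hbig
    have h8 : (((n / (8 * 16 ^ j) + 1 : ℕ) : ℝ)) * (2 * t + 2) ≤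
        (n / (8 * t ^ 4) + 1) * (4 * t) := by
      push_cast
      apply mul_le_mul
      · linarith
      · linarith
      · linarith
      · positivity
    refine h8.trans ?_
    have h9 : (n / (8 * t ^ 4) + 1) * (4 * t) = 60 * (n / (120 * t ^ 3)) + 4 * t := by
      have : t ≠ 0 := by positivity
      field_simp
      ring
    rw [h9]
    linarith

/-- the maximum exists -/
theorem g_isGreatest (d n : ℕ) (hd : 1 ≤ d) :
    IsGreatest {m : ℕ | ∀ X : Finset (EuclideanSpace ℝ (Fin d)), X.card = n → Sep X →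
      ∃ Y ⊆ X, m ≤ Y.card ∧ SSep Y} (g d n) := by
  have hbdd : ∀ m ∈ {m : ℕ | ∀ X : Finset (EuclideanSpace ℝ (Fin d)), X.card = n → Sep X →
      ∃ Y ⊆ X, m ≤ Y.card ∧ SSep Y}, m ≤ n := by
    intro m hm
    obtain ⟨X, h1, h2, -⟩ := exists_set d n hd
    obtain ⟨Y, hY, hmY, -⟩ := hm X h1 h2
    rw [← h1]
    exact hmY.trans (card_le_card hY)
  have h0 : (0 : ℕ) ∈ {m : ℕ | ∀ X : Finset (EuclideanSpace ℝ (Fin d)), X.card = n → Sep X →
      ∃ Y ⊆ X, m ≤ Y.card ∧ SSep Y} := by
    intro X _ _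
    exact ⟨∅, empty_subset X, Nat.zero_le _, fun x hx => absurd hx (notMem_empty x)⟩
  constructor
  · exact Nat.sSup_mem ⟨0, h0⟩ ⟨n, hbdd⟩
  · intro m hm
    exact le_csSup ⟨n, hbdd⟩ hm

theorem g_le (d n : ℕ) (hd : 1 ≤ d) : (g d n : ℝ) ≤ 60 * (n / (d * √d) + √d) := by
  obtain ⟨X, h1, h2, h3⟩ := exists_set d n hd
  obtain ⟨Y, hY, hmY, hYs⟩ := (g_isGreatest d n hd).1 X h1 h2
  refine le_trans ?_ (h3 Y hY hYs)
  exact_mod_cast hmY

theorem g_lt (c : ℝ) (hc : 0 < c) : ∃ d n : ℕ, 1 ≤ d ∧ (g d n : ℝ) < c * n / d := by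
  obtain ⟨m, hm⟩ := exists_nat_gt (120 / c)
  have hm0 : (0 : ℝ) < m := lt_trans (by positivity) hm
  have hm1 : 0 < m := by exact_mod_cast hm0
  refine ⟨m ^ 2, m ^ 4, Nat.one_le_iff_ne_zero.2 (by positivity), ?_⟩
  refine (g_le (m ^ 2) (m ^ 4) (Nat.one_le_iff_ne_zero.2 (by positivity))).trans_lt ?_
  push_cast
  rw [Real.sqrt_sq hm0.le]
  rw [div_lt_iff₀ hc] at hm
  have e1 : 60 * ((m : ℝ) ^ 4 / (m ^ 2 * m) + m) = 120 * m := by
    field_simp
    ring
  have e2 : c * (m : ℝ) ^ 4 / m ^ 2 = (m * c) * m := by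
    field_simp
  rw [e1, e2]
  exact mul_lt_mul_of_pos_right hm hm0

end Pool.Agent.Lib.MP_dec67b
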